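import Mathlib

/-!
# Noncommutative correspondences and periodic cyclic homology: self-contained definitions

`k` is a field.  A complex is a `k`-vector space with a grading `g : ℤ → Submodule k V` and a
differential `d` of degree `1`.  Modules are dg bimodules over a pair `L`, `A` of dg algebras:
`l a v` is the left action of `L`, `r v a` the right action of `A`.  Right dg `A`-modules are the
case `L = k`.
-/

set_option autoImplicit false

open scoped TensorProduct

noncomputable section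

namespace KPub

variable (k : Type) [Field k]

/-! ### Complexes, dg algebras, bimodules -/

/-- cochain complexes -/
def IsCx (V : Type) [AddCommGroup V] [Module k V] (g : ℤ → Submodule k V) (d : V →ₗ[k] V) :
    Prop :=
  DirectSum.IsInternal g ∧ (∀ i, ∀ v ∈ g i, d v ∈ g (i + 1)) ∧ ∀ v, d (d v) = 0

/-- dg algebras -/
def IsDGA (A : Type) [Ring A] [Algebra k A] (g : ℤ → Submodule k A) (d : A →ₗ[k] A) : Prop :=
  IsCx k A g d ∧ 1 ∈ g 0 ∧ (∀ i j, ∀ a ∈ g i, ∀ b ∈ g j, a * b ∈ g (i + j)) ∧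
    ∀ i, ∀ a ∈ g i, ∀ b, d (a * b) = d a * b + (-1 : k) ^ i • (a * d b)

section bimodules

variable (L : Type) [Ring L] [Algebra k L] (gL : ℤ → Submodule k L) (dL : L →ₗ[k] L)
  (A : Type) [Ring A] [Algebra k A] (gA : ℤ → Submodule k A) (dA : A →ₗ[k] A)

/-- dg `L`-`A`-bimodules -/
def IsBim (V : Type) [AddCommGroup V] [Module k V] (g : ℤ → Submodule k V) (d : V →ₗ[k] V)
    (l : L → V → V) (r : V → A → V) : Prop :=
  IsCx k V g d ∧ (∀ a, IsLinearMap k (l a)) ∧ (∀ v, IsLinearMap k (fun a => l a v)) ∧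
    (∀ v, IsLinearMap k (r v)) ∧ (∀ a, IsLinearMap k (fun v => r v a)) ∧
    (∀ v, l 1 v = v) ∧ (∀ v, r v 1 = v) ∧ (∀ a b v, l (a * b) v = l a (l b v)) ∧
    (∀ v a b, r v (a * b) = r (r v a) b) ∧ (∀ a v b, r (l a v) b = l a (r v b)) ∧
    (∀ i j, ∀ a ∈ gL i, ∀ v ∈ g j, l a v ∈ g (i + j) ∧
      d (l a v) = l (dL a) v + (-1 : k) ^ i • l a (d v)) ∧
    ∀ i j, ∀ v ∈ g i, ∀ a ∈ gA j, r v a ∈ g (i + j) ∧
      d (r v a) = r (d v) a + (-1 : k) ^ i • r v (dA a)

/-- morphisms of dg bimodules (of degree `0`) -/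
def IsMor (X : Type) [AddCommGroup X] [Module k X] (gX : ℤ → Submodule k X) (dX : X →ₗ[k] X)
    (lX : L → X → X) (rX : X → A → X)
    (Y : Type) [AddCommGroup Y] [Module k Y] (gY : ℤ → Submodule k Y) (dY : Y →ₗ[k] Y)
    (lY : L → Y → Y) (rY : Y → A → Y) (f : X →ₗ[k] Y) : Prop :=
  (∀ a x, f (lX a x) = lY a (f x)) ∧ (∀ x a, f (rX x a) = rY (f x) a) ∧
    (∀ x, f (dX x) = dY (f x)) ∧ ∀ i, ∀ x ∈ gX i, f x ∈ gY i

/-- quasi-isomorphisms -/
def IsQI (X : Type) [AddCommGroup X] [Module k X] (dX : X →ₗ[k] X)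
    (Y : Type) [AddCommGroup Y] [Module k Y] (dY : Y →ₗ[k] Y) (f : X →ₗ[k] Y) : Prop :=
  (∀ x, dX x = 0 → (∃ y, dY y = f x) → ∃ x', dX x' = x) ∧
    ∀ y, dY y = 0 → ∃ x y', dX x = 0 ∧ f x = y + dY y'

/-- semi-free bimodules: there is a homogeneous basis `x i`, `i : I` (the products `a (x i) b`
span freely), and `d (x i)` is a combination of basis elements of smaller rank -/
def IsSemiFree (V : Type) [AddCommGroup V] [Module k V] (g : ℤ → Submodule k V)
    (d : V →ₗ[k] V) (l : L → V → V) (r : V → A → V) (I : Type) : Prop :=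
  ∃ (x : I → V) (deg : I → ℤ) (rk : I → ℕ) (e : (I →₀ L ⊗[k] A) ≃ₗ[k] V),
    (∀ i a b, e (Finsupp.single i (a ⊗ₜ b)) = l a (r (x i) b)) ∧ ∀ i, x i ∈ g (deg i) ∧
      d (x i) ∈ Submodule.span k {v | ∃ j a b, rk j < rk i ∧ v = l a (r (x j) b)}

/-- `X` is a homotopy retract of `Y`: there are morphisms `s : X → Y`, `t : Y → X` and a bimodule
map `h : X → X` of degree `-1` with `t ∘ s = 1 + d h + h d` -/
def IsRetr (X : Type) [AddCommGroup X] [Module k X] (gX : ℤ → Submodule k X) (dX : X →ₗ[k] X)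
    (lX : L → X → X) (rX : X → A → X)
    (Y : Type) [AddCommGroup Y] [Module k Y] (gY : ℤ → Submodule k Y) (dY : Y →ₗ[k] Y)
    (lY : L → Y → Y) (rY : Y → A → Y) : Prop :=
  ∃ (s : X →ₗ[k] Y) (t : Y →ₗ[k] X) (h : X →ₗ[k] X),
    IsMor k L A X gX dX lX rX Y gY dY lY rY s ∧ IsMor k L A Y gY dY lY rY X gX dX lX rX t ∧
    (∀ i, ∀ x ∈ gX i, h x ∈ gX (i - 1)) ∧
    (∀ i, ∀ a ∈ gL i, ∀ x, h (lX a x) = (-1 : k) ^ i • lX a (h x)) ∧
    (∀ x a, h (rX x a) = rX (h x) a) ∧ ∀ x, t (s x) = x + dX (h x) + h (dX x)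

/-- perfect bimodules: quasi-isomorphic to a homotopy retract of a semi-free bimodule with a
finite basis -/
def IsPerf (V : Type) [AddCommGroup V] [Module k V] (g : ℤ → Submodule k V) (d : V →ₗ[k] V)
    (l : L → V → V) (r : V → A → V) : Prop :=
  ∃ (X : Type) (_ : AddCommGroup X) (_ : Module k X) (gX : ℤ → Submodule k X)
    (dX : X →ₗ[k] X) (lX : L → X → X) (rX : X → A → X)
    (Y : Type) (_ : AddCommGroup Y) (_ : Module k Y) (gY : ℤ → Submodule k Y)
    (dY : Y →ₗ[k] Y) (lY : L → Y → Y) (rY : Y → A → Y) (n : ℕ)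
    (f : X →ₗ[k] V), IsBim k L gL dL A gA dA X gX dX lX rX ∧
      IsBim k L gL dL A gA dA Y gY dY lY rY ∧ IsMor k L A X gX dX lX rX V g d l r f ∧
      IsQI k X dX V d f ∧ IsSemiFree k L A Y gY dY lY rY (Fin n) ∧
      IsRetr k L gL A X gX dX lX rX Y gY dY lY rY

end bimodules

/-- saturated dg algebras: `A` is a perfect `A`-`A`-bimodule and its total cohomology has finite
dimension -/
def IsSaturated (A : Type) [Ring A] [Algebra k A] (g : ℤ → Submodule k A) (d : A →ₗ[k] A) :
    Prop :=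
  IsPerf k A g d A g d A g d (fun a b => a * b) (fun a b => a * b) ∧
    FiniteDimensional k (↥(LinearMap.ker d) ⧸ (LinearMap.range d).comap (LinearMap.ker d).subtype)

/-! ### Periodic cyclic homology

Let `U` be a vector space with sets `g i` of homogeneous elements of degree `i`, a product `mul`
and a differential `d i : g i → g (i + 1)`.  A word `u₀ ⊗ ⋯ ⊗ uₙ` in homogeneous elements is the
list of the pairs `(degree of uᵢ, uᵢ)`; chains are formal linear combinations of nonempty words,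
modulo the subspace `Rel` of multilinear relations. -/

section cyclic

variable (U : Type) [AddCommGroup U] [Module k U]

/-- the multilinear relations between words -/
def Rel : Submodule k (MonoidAlgebra k (List (ℤ × U))) :=
  Submodule.span k {t | ∃ p q i u v c, t = MonoidAlgebra.single (p ++ (i, u + c • v) :: q) 1 -
    MonoidAlgebra.single (p ++ (i, u) :: q) 1 - MonoidAlgebra.single (p ++ (i, v) :: q) c}

/-- the suspended degree of a word -/
def sdeg (w : List (ℤ × U)) : ℤ := (w.map (fun x => x.1 + 1)).sum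

/-- the differential of a letter -/
def dL (d : ℤ → U → U) (x : ℤ × U) : ℤ × U := (x.1 + 1, d x.1 x.2)

/-- the product of two letters -/
def mulL (mul : U → U → U) (x y : ℤ × U) : ℤ × U := (x.1 + y.1, mul x.2 y.2)

variable (mul : U → U → U) (d : ℤ → U → U)

/-- the bar differential `b'` of a word -/
def opB' (w : List (ℤ × U)) : MonoidAlgebra k (List (ℤ × U)) :=
  ∑ i ∈ Finset.range w.length, MonoidAlgebra.single
      (w.take i ++ dL U d (w.getD i 0) :: w.drop (i + 1)) ((-1) ^ sdeg U (w.take i)) +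
    ∑ i ∈ Finset.range (w.length - 1), MonoidAlgebra.single
      (w.take i ++ mulL U mul (w.getD i 0) (w.getD (i + 1) 0) :: w.drop (i + 2))
      ((-1) ^ (sdeg U (w.take i) + (w.getD i 0).1))

/-- the Hochschild differential `b` of a word -/
def opB (w : List (ℤ × U)) : MonoidAlgebra k (List (ℤ × U)) :=
  opB' k U mul d w + if w.length < 2 then 0 else MonoidAlgebra.single
    (mulL U mul (w.getLastD 0) (w.headD 0) :: w.tail.dropLast)
    ((-1) ^ ((w.getLastD 0).1 + ((w.getLastD 0).1 + 1) * sdeg U w.dropLast))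

/-- the rotation of a word by `i` letters, with sign -/
def rotw (i : ℕ) (w : List (ℤ × U)) : MonoidAlgebra k (List (ℤ × U)) :=
  MonoidAlgebra.single (w.drop i ++ w.take i) ((-1) ^ (sdeg U (w.take i) * sdeg U (w.drop i)))

/-- the operator `1 - t`, where `t` moves the last letter to the front -/
def opT (w : List (ℤ × U)) : MonoidAlgebra k (List (ℤ × U)) :=
  MonoidAlgebra.single w 1 - rotw k U (w.length - 1) w

/-- the norm operator: the sum of all rotations -/
def opN (w : List (ℤ × U)) : MonoidAlgebra k (List (ℤ × U)) :=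
  ∑ i ∈ Finset.range w.length, rotw k U i w

/-- linear extension of an operator on words -/
def ext (F : List (ℤ × U) → MonoidAlgebra k (List (ℤ × U)))
    (x : MonoidAlgebra k (List (ℤ × U))) : MonoidAlgebra k (List (ℤ × U)) :=
  x.coeff.sum (fun w a => a • F w)

variable (g : ℤ → Set U)

/-- the chains of (homological) degree `m`: the degree of `u₀ ⊗ ⋯ ⊗ uₙ` is `n - Σ |uᵢ|` -/
def Ch (m : ℤ) : Submodule k (MonoidAlgebra k (List (ℤ × U))) :=
  Submodule.span k {t | ∃ w : List (ℤ × U), w ≠ [] ∧ (∀ x ∈ w, x.2 ∈ g x.1) ∧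
    (w.length : ℤ) - 1 - (w.map Prod.fst).sum = m ∧ t = MonoidAlgebra.single w 1}

/-- the elements of degree `m` of the periodic complex: families of chains, one for each column
`p`, zero in all columns with large `p` -/
def Per (m : ℤ) : Set (ℤ → MonoidAlgebra k (List (ℤ × U))) :=
  {c | (∀ p, c p ∈ Ch k U g (m - p)) ∧ ∃ q, ∀ p, q < p → c p = 0}

/-- the differential of the periodic complex: the columns are `b` (`p` even) and `-b'` (`p` odd),
the maps from column `p` to column `p - 1` are `1 - t` (`p` odd) and `N` (`p` even) -/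
def dPer (c : ℤ → MonoidAlgebra k (List (ℤ × U))) (p : ℤ) : MonoidAlgebra k (List (ℤ × U)) :=
  if Even p then ext k U (opB k U mul d) (c p) + ext k U (opT k U) (c (p + 1))
  else ext k U (opN k U) (c (p + 1)) - ext k U (opB' k U mul d) (c p)

/-- cycles -/
def Cyc (m : ℤ) : Set (ℤ → MonoidAlgebra k (List (ℤ × U))) :=
  {c | c ∈ Per k U g m ∧ ∀ p, dPer k U mul d c p ∈ Rel k U}

/-- boundaries -/
def Bdr (m : ℤ) : Set (ℤ → MonoidAlgebra k (List (ℤ × U))) :=
  {c | ∃ e ∈ Per k U g (m + 1), ∀ p, c p - dPer k U mul d e p ∈ Rel k U}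

end cyclic

/-! ### Correspondences -/

section corr

variable (A : Type) [Ring A] [Algebra k A] (gA : ℤ → Submodule k A) (dA : A →ₗ[k] A)

/-- the cycles of degree `m` of the periodic complex of the dg algebra `A` -/
def CycA (m : ℤ) : Set (ℤ → MonoidAlgebra k (List (ℤ × A))) :=
  Cyc k A (fun a b => a * b) (fun _ a => dA a) (fun i => (gA i : Set A)) m

/-- the boundaries of degree `m` of the periodic complex of the dg algebra `A` -/
def BdrA (m : ℤ) : Set (ℤ → MonoidAlgebra k (List (ℤ × A))) :=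
  Bdr k A (fun a b => a * b) (fun _ a => dA a) (fun i => (gA i : Set A)) m

/-- `H` is (by means of `q`) the periodic cyclic homology `HP_m(A)`: `q` maps the cycles onto `H`,
and its kernel on the cycles consists of the boundaries (so `H` is unique up to a unique
isomorphism) -/
def IsHP (m : ℤ) (H : Type) [AddCommGroup H] [Module k H]
    (q : (ℤ → MonoidAlgebra k (List (ℤ × A))) →ₗ[k] H) : Prop :=
  (∀ h, ∃ c ∈ CycA k A gA dA m, q c = h) ∧
    ∀ c ∈ CycA k A gA dA m, q c = 0 ↔ c ∈ BdrA k A gA dA m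

section

variable (M : Type) [AddCommGroup M] [Module k M] (gM : ℤ → Submodule k M) (dM : M →ₗ[k] M)
  (l : A → M → M) (r : M → A → M)

/-- correspondences: semi-free `A`-`A`-bimodules which are perfect as right `A`-modules -/
def IsCorr : Prop :=
  IsBim k A gA dA A gA dA M gM dM l r ∧ (∃ I : Type, IsSemiFree k A A M gM dM l r I) ∧
    IsPerf k k (fun i => if i = 0 then ⊤ else ⊥) 0 A gA dA M gM dM (fun c m => c • m) r

/-- the homogeneous endomorphisms of degree `i` of the right module `A ⊕ M` -/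
def gE (i : ℤ) : Set (A × M → A × M) :=
  {f | IsLinearMap k f ∧ (∀ v a, f (v.1 * a, r v.2 a) = ((f v).1 * a, r (f v).2 a)) ∧
    ∀ j v, v.1 ∈ gA j → v.2 ∈ gM j → (f v).1 ∈ gA (i + j) ∧ (f v).2 ∈ gM (i + j)}

/-- the differential of an endomorphism of degree `i` -/
def dE (i : ℤ) (f : A × M → A × M) (v : A × M) : A × M :=
  (dA (f v).1, dM (f v).2) - (-1 : k) ^ i • f (dA v.1, dM v.2)

/-- the boundaries of degree `m` of the periodic complex of the dg algebra of endomorphisms of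
the right module `A ⊕ M` -/
def BdrE (m : ℤ) : Set (ℤ → MonoidAlgebra k (List (ℤ × (A × M → A × M)))) :=
  Bdr k (A × M → A × M) (fun f h => f ∘ h) (dE k A dA M dM) (gE k A gA M gM r) m

variable (H₀ : Type) [AddCommGroup H₀] [Module k H₀]
  (q₀ : (ℤ → MonoidAlgebra k (List (ℤ × A))) →ₗ[k] H₀)
  (H₁ : Type) [AddCommGroup H₁] [Module k H₁]
  (q₁ : (ℤ → MonoidAlgebra k (List (ℤ × A))) →ₗ[k] H₁)

/-- `φ` is the endomorphism of `HP^±(A) = H₀ × H₁` induced by `M`: with `u a (b, m) = (a b, 0)`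
and `v a (b, m) = (0, a m)` one has `HP(u) ∘ φ = HP(v)` in `HP^±` of the dg algebra of
endomorphisms of the right module `A ⊕ M` -/
def Induces (φ : H₀ × H₁ →ₗ[k] H₀ × H₁) : Prop :=
  ∃ u v : A → A × M → A × M, (∀ a x, u a x = (a * x.1, 0)) ∧ (∀ a x, v a x = (0, l a x.2)) ∧
    ∀ x ∈ CycA k A gA dA 0, ∀ y ∈ CycA k A gA dA 0,
    ∀ x' ∈ CycA k A gA dA 1, ∀ y' ∈ CycA k A gA dA 1, φ (q₀ x, q₁ x') = (q₀ y, q₁ y') →
    (fun p => (y p).mapDomain (List.map (Prod.map id u)) -
      (x p).mapDomain (List.map (Prod.map id v))) ∈ BdrE k A gA dA M gM dM r 0 ∧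
    (fun p => (y' p).mapDomain (List.map (Prod.map id u)) -
      (x' p).mapDomain (List.map (Prod.map id v))) ∈ BdrE k A gA dA M gM dM r 1

end

variable (H₀ : Type) [AddCommGroup H₀] [Module k H₀]
  (q₀ : (ℤ → MonoidAlgebra k (List (ℤ × A))) →ₗ[k] H₀)
  (H₁ : Type) [AddCommGroup H₁] [Module k H₁]
  (q₁ : (ℤ → MonoidAlgebra k (List (ℤ × A))) →ₗ[k] H₁)

/-- `φ` is induced by a correspondence -/
def IsInd (φ : H₀ × H₁ →ₗ[k] H₀ × H₁) : Prop :=
  ∃ (M : Type) (_ : AddCommGroup M) (_ : Module k M) (gM : ℤ → Submodule k M)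
    (dM : M →ₗ[k] M) (l : A → M → M) (r : M → A → M),
    IsCorr k A gA dA M gM dM l r ∧ Induces k A gA dA M gM dM l r H₀ q₀ H₁ q₁ φ

/-- `ψ` is algebraic with coefficients in `F`: over a common extension `E` of `F` and `k` it is
a combination, with coefficients in `F`, of endomorphisms induced by correspondences -/
def IsAlg (F E : Type) [Field F] [Field E] [Algebra F E] [Algebra k E]
    (ψ : H₀ × H₁ →ₗ[k] H₀ × H₁) : Prop :=
  ∃ (n : ℕ) (c : Fin n → F) (φ : Fin n → (H₀ × H₁ →ₗ[k] H₀ × H₁)),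
    (∀ i, IsInd k A gA dA H₀ q₀ H₁ q₁ (φ i)) ∧
      ∀ x, (1 : E) ⊗ₜ[k] ψ x = ∑ i, algebraMap F E (c i) ⊗ₜ[k] φ i x

end corr

end KPub
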